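import Pool.Agent.TH345.AT.D

/-!
# Deligne's conjecture for Dirichlet twists is a reciprocity law for additive twists

Let `M` be a motive over the rationals with coefficients in `E`, of odd weight and rank `2d`, with
good reduction at the primes dividing `N`, and `m` a critical integer.  Let `a n` be the coefficients
of `L(M, s)`, and `c ι` the component at `ι : E → ℂ` of the Deligne period `c^ε(M, m)` for a sign `ε`.
For a Dirichlet character `χ` modulo `N` of sign `ε` and Gauss sum `τ(χ) ≠ 0` Deligne's conjecture for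
the motive `M ⊗ χ` at `m`, whose period is `τ(χ)^d c^ε(M, m)`, says that
`L(M ⊗ χ, m) / (τ(χ)^d c^ε(M, m))` is equivariant under all automorphisms of `ℂ`.

The theorem: this holds for all such `χ` if and only if the values at `m` of the additive twists
`∑ a_n e(bn/N) n^{-s}` (sum over `n` prime to `N`, part of sign `ε` in `b`) satisfy the reciprocity
law `σ (A_ι(b) / c_ι) = A_{σι}(t^{1-d} b) / c_{σι}`, `σ e(1/N) = e(t/N)`; and if and only if the
hyper-Kloosterman twisted values `∑ a_n Kl_d(bn) n^{-s}` are equivariant, that is, lie in `E ⬝ c`.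
More generally this holds for the twists by `Kl_k`, `k ≥ 1`, with `t^{k-d}`.
-/

set_option autoImplicit false

namespace Pool.Agent.Results.MP_cd171c_nt.AdditiveTwists

open Pool.TH345.AT

/-- The part of sign `ε` of a function on the units modulo `N`. -/
noncomputable def sgnPart {N : ℕ} (ε : ℂ) (V : (ZMod N)ˣ → ℂ) (b : (ZMod N)ˣ) : ℂ :=
  (V b + ε * V (-b)) / 2

/-- **Deligne's conjecture for the Dirichlet twists** of sign `ε`: for every Dirichlet character `χ`
modulo `N` with `χ(-1) = ε` and non-zero Gauss sum, the numbers `L ι χ / (τ(χ)^d c ι)` are permuted by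
the automorphisms of `ℂ` as the pairs `(ι, χ)` are. -/
def Deligne {E : Type} [Field E] {N : ℕ} [NeZero N] (d : ℕ)
    (L : (E →+* ℂ) → DirichletCharacter ℂ N → ℂ) (c : (E →+* ℂ) → ℂ) (ε : ℂ) : Prop :=
  ∀ χ : DirichletCharacter ℂ N, χ (-1) = ε → tau χ ≠ 0 → ∀ (ι : E →+* ℂ) (σ : ℂ ≃+* ℂ),
    σ (L ι χ / (tau χ ^ d * c ι)) =
      L ((σ : ℂ →+* ℂ).comp ι) (cj σ χ) / (tau (cj σ χ) ^ d * c ((σ : ℂ →+* ℂ).comp ι))

/-- **The reciprocity law** with exponent `s` for the part of sign `ε` of the values `V ι b`. -/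
def Reciprocity {E : Type} [Field E] {N : ℕ} [NeZero N] (s : ℤ)
    (V : (E →+* ℂ) → (ZMod N)ˣ → ℂ) (c : (E →+* ℂ) → ℂ) (ε : ℂ) : Prop :=
  ∀ (b : (ZMod N)ˣ) (ι : E →+* ℂ) (σ : ℂ ≃+* ℂ) (t : (ZMod N)ˣ), Acts σ t →
    σ (sgnPart ε (V ι) b / c ι) =
      sgnPart ε (V ((σ : ℂ →+* ℂ).comp ι)) (t ^ s * b) / c ((σ : ℂ →+* ℂ).comp ι)

/-- Let `E` be a number field, `a : ℕ → E`, `N, k ≥ 1`, `d ≥ 0`, `U` a connected subset of `ℂ`
containing `m`, and suppose that for every embedding `ι` and every Dirichlet character `χ` modulo `N`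
the series `∑ χ(n) ι(a n) n^{-s}` converges absolutely in a right half plane contained in `U` and is
continued analytically to `U`, with the value `L ι χ` at `m`.  Then for every `b` prime to `N` the
series `∑ Kl_k(bn) ι(a n) n^{-s}` is continued to `U` in the same sense, with a unique value `V ι b` at
`m`, and for all non-zero numbers `c ι` and both signs `ε`, Deligne's conjecture for the Dirichlet
twists is equivalent to the reciprocity law for the numbers `V ι b` with exponent `k - d`. -/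
theorem result {E : Type} [Field E] [NumberField E] (a : ℕ → E) (N : ℕ) [NeZero N] (d k : ℕ)
    (hk : 1 ≤ k) (m : ℂ) (U : Set ℂ) (hU : IsPreconnected U) (hm : m ∈ U)
    (L : (E →+* ℂ) → DirichletCharacter ℂ N → ℂ)
    (hL : ∀ (ι : E →+* ℂ) (χ : DirichletCharacter ℂ N),
      IsValue U m (fun n => χ (n : ZMod N) * ι (a n)) (L ι χ)) :
    ∃ V : (E →+* ℂ) → (ZMod N)ˣ → ℂ,
      (∀ (ι : E →+* ℂ) (b : (ZMod N)ˣ) (z : ℂ),
        IsValue U m (fun n => Kl k ((b : ZMod N) * (n : ZMod N)) * ι (a n)) z ↔ z = V ι b) ∧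
      ∀ c : (E →+* ℂ) → ℂ, (∀ ι, c ι ≠ 0) → ∀ ε : ℂ, (ε = 1 ∨ ε = -1) →
        (Deligne d L c ε ↔ Reciprocity ((k : ℤ) - d) V c ε) := by
  refine ⟨fun ι b => ftr (fun χ => tau χ⁻¹ ^ k * L ι χ) (b : ZMod N), fun ι b z => ?_,
    fun c hc ε hε => ?_⟩
  · have h1 := isValue_Kl (fun n => ι (a n)) (L ι) (hL ι) k (b : ZMod N)
    exact ⟨fun hz => hz.unique hU hm h1, fun hz => hz ▸ h1⟩
  · have h1 := alg (fun (σ : ℂ ≃+* ℂ) (ι : E →+* ℂ) => (σ : ℂ →+* ℂ).comp ι) hε L c hc d k hk
    unfold Deligne Reciprocity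
    rw [h1]
    have h2 : ∀ (ι : E →+* ℂ) (b : (ZMod N)ˣ),
        sgnPart ε (fun b : (ZMod N)ˣ => ftr (fun χ => tau χ⁻¹ ^ k * L ι χ) (b : ZMod N)) b =
          itr ε (fun χ => tau χ⁻¹ ^ k * L ι χ) b := by
      intro ι b
      rw [← ftr_sign hε]
      unfold sgnPart
      simp only [Units.val_neg]
    simp only [h2]

end Pool.Agent.Results.MP_cd171c_nt.AdditiveTwists
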