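import Pool.Agent.TH590.JH.Pure

/-!
# Deligne's period conjecture in odd weight and smooth affine cubic hypersurfaces
-/

set_option autoImplicit false

open CategoryTheory CategoryTheory.Limits AlgebraicGeometry Pool.Agent.TH90.Cub
  Pool.Agent.TH590.JH
open scoped TensorProduct

namespace Pool.Agent.Results.MP_cd171c_nt.CubicHypersurfaces

universe v u

attribute [local instance] Abelian.hasFiniteBiproducts

/-- The data in Deligne's period conjecture for a theory of motives over `ℚ` with coefficients in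
the number field `F`, for motives of odd weight. -/
structure Deligne (F : Type) [Field F] [NumberField F] {𝓐 : Type u} [Category.{v} 𝓐] [Abelian 𝓐]
    (T : Theory ℚ 𝓐) where
  /-- the integer `s` is critical for `M` -/
  Critical : 𝓐 → ℤ → Prop
  /-- the map `α⁺` of `M(s)` is an isomorphism -/
  AlphaIso : 𝓐 → ℤ → Prop
  /-- the value `L(M, s)` -/
  L : 𝓐 → ℤ → F ⊗[ℚ] ℂ
  /-- the period `c⁺(M, s)` (if `α⁺` is an isomorphism) -/
  c : 𝓐 → ℤ → F ⊗[ℚ] ℂ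
  /-- direct sums of motives of the same odd weight -/
  additive : ∀ (w : ℤ) (n : ℕ) (S : Fin n → 𝓐) (M : 𝓐), Odd w → (∀ a, T.IsPure w (S a)) →
    Nonempty (M ≅ ⨁ S) → ∀ s : ℤ,
    (Critical M s ↔ ∀ a, Critical (S a) s) ∧
    (AlphaIso M s ↔ ∀ a, AlphaIso (S a) s) ∧
    (Critical M s → L M s = ∏ a, L (S a) s) ∧
    (AlphaIso M s → ∃ e : F, e ≠ 0 ∧ c M s = (e ⊗ₜ[ℚ] (1 : ℂ)) * ∏ a, c (S a) s)
  /-- Tate twists -/
  twist : ∀ (w : ℤ) (M : 𝓐) (n : ℤ), Odd w → T.IsPure w M → ∀ s : ℤ,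
    (Critical ((T.tw n).obj M) s ↔ Critical M (s + n)) ∧
    (AlphaIso ((T.tw n).obj M) s ↔ AlphaIso M (s + n)) ∧
    L ((T.tw n).obj M) s = L M (s + n) ∧
    (AlphaIso M (s + n) → ∃ e : F, e ≠ 0 ∧
      c ((T.tw n).obj M) s = (e ⊗ₜ[ℚ] (1 : ℂ)) * c M (s + n))

/-- Deligne's period conjecture for `M` and the integer `s`: the map `α⁺` of `M(s)` is an
isomorphism, and `L(M, s)` is the product of `c⁺(M, s)` and an element of `F`. -/
def Deligne.Conj {F : Type} [Field F] [NumberField F] {𝓐 : Type u} [Category.{v} 𝓐] [Abelian 𝓐]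
    {T : Theory ℚ 𝓐} (D : Deligne F T) (M : 𝓐) (s : ℤ) : Prop :=
  D.AlphaIso M s ∧ ∃ ℓ : F, D.L M s = D.c M s * (ℓ ⊗ₜ[ℚ] (1 : ℂ))

variable {F : Type} [Field F] [NumberField F] {𝓐 : Type u} [Category.{v} 𝓐] [Abelian 𝓐]

theorem tm_mul (a b : F) :
    ((a ⊗ₜ[ℚ] (1 : ℂ)) * (b ⊗ₜ[ℚ] (1 : ℂ)) : F ⊗[ℚ] ℂ) = (a * b) ⊗ₜ[ℚ] (1 : ℂ) := by
  rw [Algebra.TensorProduct.tmul_mul_tmul, mul_one]

theorem tm_prod {n : ℕ} (e : Fin n → F) :
    (∏ a, (e a ⊗ₜ[ℚ] (1 : ℂ)) : F ⊗[ℚ] ℂ) = (∏ a, e a) ⊗ₜ[ℚ] (1 : ℂ) := by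
  have h9 : ∀ s : Finset (Fin n), (∏ a ∈ s, (e a ⊗ₜ[ℚ] (1 : ℂ)) : F ⊗[ℚ] ℂ) =
      (∏ a ∈ s, e a) ⊗ₜ[ℚ] (1 : ℂ) := by
    intro s
    induction s using Finset.induction_on with
    | empty => simp [Algebra.TensorProduct.one_def]
    | insert a s ha ih => rw [Finset.prod_insert ha, Finset.prod_insert ha, ih, tm_mul]
  exact h9 Finset.univ

theorem conj_sum {T : Theory ℚ 𝓐} (D : Deligne F T) (w : ℤ) (n : ℕ) (S : Fin n → 𝓐) (M : 𝓐)
    (hw : Odd w) (hS : ∀ a, T.IsPure w (S a)) (hM : Nonempty (M ≅ ⨁ S)) (s : ℤ)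
    (hc : D.Critical M s) (h : ∀ a, D.Conj (S a) s) : D.Conj M s := by
  obtain ⟨-, h2, h3, h4⟩ := D.additive w n S M hw hS hM s
  have hα : D.AlphaIso M s := h2.mpr fun a => (h a).1
  obtain ⟨e, he, h5⟩ := h4 hα
  choose ℓ hℓ using fun a => (h a).2
  refine ⟨hα, e⁻¹ * ∏ a, ℓ a, ?_⟩
  rw [h3 hc, h5, Finset.prod_congr rfl (fun a _ => hℓ a), Finset.prod_mul_distrib, tm_prod,
    ← tm_mul]
  have h6 : ((e ⊗ₜ[ℚ] (1 : ℂ)) * (e⁻¹ ⊗ₜ[ℚ] (1 : ℂ)) : F ⊗[ℚ] ℂ) = 1 := by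
    rw [tm_mul, mul_inv_cancel₀ he, Algebra.TensorProduct.one_def]
  linear_combination (-(∏ a, D.c (S a) s) * (((∏ a, ℓ a) ⊗ₜ[ℚ] (1 : ℂ) : F ⊗[ℚ] ℂ))) * h6

theorem conj_tw {T : Theory ℚ 𝓐} (D : Deligne F T) (w : ℤ) (M : 𝓐) (n : ℤ) (hw : Odd w)
    (hM : T.IsPure w M) (s : ℤ) (h : D.Conj M (s + n)) : D.Conj ((T.tw n).obj M) s := by
  obtain ⟨-, h2, h3, h4⟩ := D.twist w M n hw hM s
  obtain ⟨hα, ℓ, hℓ⟩ := h
  obtain ⟨e, he, h5⟩ := h4 hα
  refine ⟨h2.mpr hα, e⁻¹ * ℓ, ?_⟩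
  rw [h3, hℓ, h5, ← tm_mul]
  have h6 : ((e ⊗ₜ[ℚ] (1 : ℂ)) * (e⁻¹ ⊗ₜ[ℚ] (1 : ℂ)) : F ⊗[ℚ] ℂ) = 1 := by
    rw [tm_mul, mul_inv_cancel₀ he, Algebra.TensorProduct.one_def]
  linear_combination (-(D.c M (s + n)) * ((ℓ ⊗ₜ[ℚ] (1 : ℂ) : F ⊗[ℚ] ℂ))) * h6

/-- **Deligne's period conjecture in odd weight and smooth affine cubic hypersurfaces.** Deligne's
period conjecture (including the assertion on `α⁺`) holds for all motives `M` over `ℚ` with
coefficients in `F` of odd weight and all critical integers if and only if it holds for the simple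
motives of odd weight which are subquotients of some `H_c^j(C)` (with coefficients in `F`, without
Tate twist) and all critical integers, where `C` is a hypersurface `g_0 t_0 + ⋯ + g_r t_r = 1` in
the affine space with the coordinates `x_1, …, x_n, t_0, …, t_r` over `ℚ`, each `g_i` being of the
form `x_a x_b - x_c`, `x_a + x_b - x_c` or `x_a - 1`. These hypersurfaces `C` are smooth. -/
theorem result (T : Theory ℚ 𝓐) (D : Deligne F T) :
    ((∀ (w : ℤ) (M : 𝓐), Odd w → T.IsPure w M → ∀ s, D.Critical M s → D.Conj M s) ↔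
      (∀ (w : ℤ) (M : 𝓐), Odd w → T.IsPure w M → Simple M →
        (∃ (n r : ℕ) (g : Fin (r + 1) → MvPolynomial (Fin n) ℚ), (∀ i, IsGate {1} (g i)) ∧
          ∃ j : ℤ, SubQuot M (T.H j (Spec (CommRingCat.of (Cubic g))) (str ℚ (Cubic g)))) →
        ∀ s, D.Critical M s → D.Conj M s)) ∧
    (∀ (n r : ℕ) (g : Fin (r + 1) → MvPolynomial (Fin n) ℚ), Smooth (str ℚ (Cubic g))) := by
  refine ⟨⟨fun h w M hw hM _ _ s hs => h w M hw hM s hs, fun h w M hw hM s hcrit => ?_⟩,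
    fun n r g => cubic_smooth g⟩
  obtain ⟨n, S, hSa, hMS⟩ := hM
  have hpure : ∀ a, T.IsPure w (S a) := fun a => Theory.IsPure.of_simple (hSa a).1 (hSa a).2
  obtain ⟨h1, -, -, -⟩ := D.additive w n S M hw hpure hMS s
  refine conj_sum D w n S M hw hpure hMS s hcrit fun a => ?_
  have hca := h1.mp hcrit a
  obtain ⟨X, f, i, m₀, hf, hwi, hq⟩ := (hSa a).2
  have hsimp := (hSa a).1
  obtain ⟨n', r, g, hg, j, m₁, hq'⟩ :=
    T.fromCubic closure_one_rat (Set.mem_singleton 1) f hf.ft i m₀ (S a) hsimp hq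
  -- the untwisted motive
  obtain ⟨e⟩ := T.twIso m₁ (-m₁) (by ring)
  obtain ⟨e'⟩ := T.twIso (-m₁) m₁ (by ring)
  have hs' := simple_obj (T.tw (-m₁)) (S a)
  have hq2 : SubQuot ((T.tw (-m₁)).obj (S a))
      (T.H j (Spec (CommRingCat.of (Cubic g))) (str ℚ (Cubic g))) :=
    (hq'.map (T.tw (-m₁))).of_iso (e.app _)
  have hpure' : T.IsPure (w + 2 * m₁) ((T.tw (-m₁)).obj (S a)) := by
    obtain ⟨e2⟩ := T.tw_add m₀ (-m₁)
    exact Theory.IsPure.of_simple hs' ⟨X, f, i, m₀ + -m₁, hf, by rw [← hwi]; ring,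
      (hq.map (T.tw (-m₁))).of_iso (e2.app _)⟩
  have hodd : Odd (w + 2 * m₁) := hw.add_even (even_two_mul m₁)
  have hc' : D.Critical ((T.tw (-m₁)).obj (S a)) (s + m₁) := by
    rw [(D.twist w (S a) (-m₁) hw (hpure a) (s + m₁)).1]
    convert hca using 1
    ring
  have h3 := h _ _ hodd hpure' hs' ⟨n', r, g, hg, j, hq2⟩ (s + m₁) hc'
  have h4 := conj_tw D (w + 2 * m₁) _ m₁ hodd hpure' s h3
  -- transport along `S a ≅ (S a)(-m₁)(m₁)`
  have hpure2 : T.IsPure w ((T.tw m₁).obj ((T.tw (-m₁)).obj (S a))) := by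
    have hs2 := simple_obj (T.tw m₁) ((T.tw (-m₁)).obj (S a))
    exact Theory.IsPure.of_simple hs2 ⟨X, f, i, m₀, hf, hwi,
      hq.of_iso_left (e'.app (S a)).symm⟩
  exact conj_sum D w 1 (fun _ => (T.tw m₁).obj ((T.tw (-m₁)).obj (S a))) (S a) hw
    (fun _ => hpure2) ⟨((e'.app (S a)).symm).trans (biproductUniqueIso
      (fun _ : Fin 1 => (T.tw m₁).obj ((T.tw (-m₁)).obj (S a)))).symm⟩ s hca (fun _ => h4)

end Pool.Agent.Results.MP_cd171c_nt.CubicHypersurfaces
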