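import Pool.Agent.TH123.GI.Final

open Pool.Agent.TH123.GI

namespace Pool.Agent.Results.MP_cd171c_nt.GeometricallyIrreducible

/-- Let `M` be a motive over `ℚ`, that is a semisimple representation `V` of the motivic Galois
group `G` (which maps onto `Gal(Qb/ℚ)`), and `L` a Galois number field over which every
irreducible factor of `M` is irreducible over `Qb` (all large `L` are such). Deligne's conjecture
holds for `Res_{K/ℚ} N` for all subfields `K` of `L` and all direct factors `N` of `M` over `K`
if and only if it holds for those `K` with hyperelementary Galois group `Gal(L/K)` and those `N`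
which are irreducible over `Qb`. -/
theorem result {k G V : Type} [Field k] [IsAlgClosed k] [CharZero k] [Group G] [AddCommGroup V]
    [Module k V] [FiniteDimensional k V] (π : G →* GQ) (hπ : Function.Surjective π)
    (ρ : Representation k G V) (hρ : Semisimple ρ) :
    (∃ L0 : IntermediateField ℚ Qb, NumberField L0 ∧
      ∀ L : IntermediateField ℚ Qb, NumberField L → L0 ≤ L → Split π ρ L) ∧
    ∀ L : IntermediateField ℚ Qb, NumberField L → IsGalois ℚ L → Split π ρ L →
      ∀ D : Vals π ρ,
        ((∀ K ≤ L, ∀ N : Fac π ρ K, D.Conj N.res) ↔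
          ∀ K ≤ L, HypExt K L → ∀ N : Fac π ρ K, N.GeomIrr → D.Conj N.res) :=
  ⟨exists_split hρ π, fun _ hL hG hs D =>
    ⟨fun h K hK _ N _ => h K hK N, fun h K hK N => main hρ hπ hL hG hs D h K hK N⟩⟩

end Pool.Agent.Results.MP_cd171c_nt.GeometricallyIrreducible
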