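import Pool.Agent.TH5.UTS.Main

open Pool.Agent.TH965.Stk Pool.Agent.TH944.Tw

namespace Pool.Agent.Results.MP_cd171c_nt.UpToSign

/-- The defect of Deligne's conjecture for the twist of `M` by the virtual Artin motive with
character `f`: the quotient of `σ` of the `τ`-component of `L / c^+` by its `σ τ`-component for the
conjugate character. -/
noncomputable def D {E : Type} [Field E] (T : Twists E) (σ : ℂ ≃+* ℂ) (τ : E →+* ℂ)
    (f : GQ → ℂ) : ℂˣ :=
  T.B 0 1 (dim T.cc 1 f) (dim T.cc (-1) f) σ τ f

/-- Let `U` be any subgroup of the multiplicative group of complex numbers, for instance the trivial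
one. Assume Deligne's conjecture modulo `U` for the value at `s₀` of `M ⊗ Ind ψ`, where `M` is a
motive over `ℚ` of odd weight and `ψ` is a linear character of a totally complex number field with
at least `N` complex places, or the trivial character of a number field with at least `N` complex
places. Then the squares of the defects of all Artin twists of `M` lie in `U` (for trivial `U`:
Deligne's conjecture up to sign for all Artin twists); Deligne's conjecture modulo `U` holds for the
twists by `Ind η`, where `η` is a linear character of any number field, of order not divisible by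
four; the defects modulo `U` do not change under such twists; and the conjecture modulo `U` holds
for all Artin twists if and only if it holds for the twists by `Ind ψ`, where `ψ` is a linear
character of order `4, 8, 16, ...` of a number field with real places and at least `N` complex
places, trivial on the complex conjugations. -/
theorem result {E : Type} [Field E] (U : Subgroup ℂˣ) (T : Twists E) (N : ℕ)
    (H : ∀ σ τ K, IsNF K → N ≤ r2 K → ∀ ψ : LinChar K, (IsTC K ∨ ∀ g, ψ.hom g = 1) →
      T.B 0 1 (r1 K + r2 K) (r2 K) σ τ (ind QQ K ψ.fn) ∈ U) :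
    ∀ σ τ, (∀ f ∈ Virt QQ, D T σ τ f ^ 2 ∈ U) ∧
      (∀ K, IsNF K → ∀ (η : LinChar K) (n : ℕ), Odd n → (∀ g, η.hom g ^ (2 * n) = 1) →
        D T σ τ (ind QQ K η.fn) ∈ U ∧
        ∀ ψ : LinChar K, D T σ τ (ind QQ K fun g => ψ.fn g * η.fn g) /
          D T σ τ (ind QQ K ψ.fn) ∈ U) ∧
      (∀ f ∈ Virt QQ, ∀ (χ : LinChar QQ) (n : ℕ), Odd n → (∀ g, χ.hom g ^ (2 * n) = 1) →
        (fun g => f g * χ.fn g) ∈ Virt QQ ∧
        D T σ τ (fun g => f g * χ.fn g) / D T σ τ f ∈ U) ∧
      ((∀ f ∈ Virt QQ, D T σ τ f ∈ U) ↔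
        ∀ K, IsNF K → N ≤ r2 K → ¬ IsTC K → ∀ ψ : LinChar K, ψ.HasSign 1 →
          (∃ a : ℕ, ∀ g, ψ.hom g ^ (2 ^ a) = 1) → (∃ g, ψ.hom g ^ 2 ≠ 1) →
          D T σ τ (ind QQ K ψ.fn) ∈ U) := by
  intro σ τ
  have h := Pool.Agent.TH5.UTS.main U T 0 1 N σ τ (H σ τ)
  exact ⟨h.1, h.2.2, h.2.1, Pool.Agent.TH5.UTS.rest U T 0 1 N σ τ (H σ τ)⟩

end Pool.Agent.Results.MP_cd171c_nt.UpToSign
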